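import Pool.Agent.R366.AB.Quad

/-!
# The n-term abc conjecture for sums of squares and of products of linear forms

`K` is a number field, `X` the quadric `Q = ∑ A_ij x_i x_j = 0` in `ℙⁿ` over `K`, of rank at least
five, and `φ : X ⇢ H` a rational map over `K` to the hyperplane `H : z_1 + ⋯ + z_r = 0` of `ℙ^(r-1)`,
given by forms `f_i = c_i ∏_j F_j ^ (a_ij)` of degree `D` whose sum vanishes on `X`; the `F_j` are
irreducible forms over `K`. The main examples are the points whose coordinates are multiples of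
squares or products of two linear forms:

* `z_i = c_i x_i ^ 2` with `∑ c_i x_i ^ 2 = 0`, at least five terms;
* `z_i = c_i x_(2 i - 1) x_(2 i)` with `∑ c_i x_(2 i - 1) x_(2 i) = 0`, at least three terms.

A factor `F_j` has weight `m_j = deg F_j` if it is linear or quadratic, weight `m_j` if it is the norm
form of a linear form with `m_j` linearly independent coefficients, and every factor has weight one.
The form `Q` has to have rank at least two on the space of the vectors along which `F_i` and `F_j` are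
constant, for all `i` and `j`, and on the space of the vectors along which `F_j` and all factors of one
of the `f_i` which is prime to `F_j` are constant, for all `j`.

Then for each `θ < ∑ m_j` all but `O(B ^ (n - 1 - ε))` of the about `B ^ (n - 1)` points `x` of `X(K)`
of relative height at most `B` are mapped to points `z = φ(x)` of `H(K)` with nonzero coordinates,
`rad(z) ≥ θ log B / [K : ℚ] - C` and `h(z) ≤ (D / θ) rad(z) + C`. If the sum of the weights is at least
`D` (in the examples it is `r` or `2 r`, and `D = 2`), this is stronger than the inequality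
`h < (1 + δ) rad + C` of the conjecture.
-/

set_option autoImplicit false

namespace Pool.Agent.Results.MP_7475bd_nt.ImagesOfQuadrics

open MvPolynomial NumberField IsDedekindDomain
open scoped LinearAlgebra.Projectivization

variable {K : Type} [Field K] [NumberField K] {n q r : ℕ}

/-- The quadratic form `∑ A_ij x_i x_j` has rank at least `s` on the linear space `W`: there are `s`
pairwise orthogonal nonisotropic vectors in `W`. -/
def RankGe (A : Fin (n + 1) → Fin (n + 1) → 𝓞 K) (W : Set (Fin (n + 1) → K)) (s : ℕ) : Prop :=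
  ∃ w : Fin s → Fin (n + 1) → K, (∀ a, w a ∈ W) ∧
    (∀ a, ∑ i, ∑ j, (A i j : K) * w a i * w a j ≠ 0) ∧
    ∀ a b, a ≠ b → ∑ i, ∑ j, (A i j : K) * w a i * w b j = 0

/-- `F` is constant along the vector `w`. -/
def Along (F : MvPolynomial (Fin (n + 1)) (𝓞 K)) (w : Fin (n + 1) → K) : Prop :=
  ∀ (c : K) (x : Fin (n + 1) → K), aeval (x + c • w) F = aeval x F

/-- `F` is, up to a constant factor, the norm form of `∑ α i * x i` from an extension `E` of `K`, and
`m` of the `α i` are linearly independent over `K`. -/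
def IsNormForm (F : MvPolynomial (Fin (n + 1)) (𝓞 K)) (m : ℕ) : Prop :=
  ∃ (E : Type) (_ : Field E) (_ : NumberField E) (_ : Algebra K E) (c : K) (α : Fin (n + 1) → E)
    (J : Finset (Fin (n + 1))), c ≠ 0 ∧ J.card = m ∧
      LinearIndependent K (fun j : J => α j) ∧
      ∀ x : Fin (n + 1) → 𝓞 K, ((eval x F : 𝓞 K) : K) =
        c * Algebra.norm K (∑ i, algebraMap K E (x i) * α i)

/-- The point `z` with the coordinates `z_i = c_i ∏_j F_j(x) ^ (a_ij)`. -/
noncomputable def point (F : Fin q → MvPolynomial (Fin (n + 1)) (𝓞 K)) (a : Fin r → Fin q → ℕ)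
    (c : Fin r → K) (x : Fin (n + 1) → K) : Fin r → K :=
  fun i => c i * ∏ j, aeval x (F j) ^ a i j

/-- The absolute logarithmic height `h(z)` of the point with homogeneous coordinates `z`. -/
noncomputable def height (z : Fin r → K) : ℝ := Height.logHeight z / Module.finrank ℚ K

open Classical in
/-- `rad(z)`: the sum of `log N(v) / [K : ℚ]` over the primes `v` of `K` at which the coordinates do
not all have the same absolute value. -/
noncomputable def radical (z : Fin r → K) : ℝ :=
  (∑ᶠ v : HeightOneSpectrum (𝓞 K), if ∃ i j, FinitePlace.mk v (z i) ≠ FinitePlace.mk v (z j)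
    then Real.log (Ideal.absNorm v.asIdeal) else 0) / Module.finrank ℚ K

/-- **The n-term abc inequality for almost all points of the images of quadrics.** -/
theorem result (K : Type) [Field K] [NumberField K] (n q r : ℕ)
    -- the quadric
    (A : Fin (n + 1) → Fin (n + 1) → 𝓞 K) (hA : ∀ i j, A i j = A j i)
    (hrank : RankGe A Set.univ 5)
    -- the irreducible factors and their weights
    (F : Fin q → MvPolynomial (Fin (n + 1)) (𝓞 K)) (k m : Fin q → ℕ)
    (hhom : ∀ j, (F j).IsHomogeneous (k j))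
    (hirr : ∀ j, Irreducible (map (algebraMap (𝓞 K) K) (F j)))
    (hdist : ∀ i j, i ≠ j →
      ¬ Associated (map (algebraMap (𝓞 K) K) (F i)) (map (algebraMap (𝓞 K) K) (F j)))
    (hm : ∀ j, m j ≤ 1 ∨ (m j ≤ k j ∧ k j ≤ 2) ∨ IsNormForm (F j) (m j))
    (hpair : ∀ i j, RankGe A {w | Along (F i) w ∧ Along (F j) w} 2)
    -- the forms `f_i = c_i ∏_j F_j ^ (a_ij)` of degree `D`
    (D : ℕ) (a : Fin r → Fin q → ℕ) (ha : ∀ i, ∑ j, a i j * k j = D)
    (hpos : ∀ j, ∃ i, 1 ≤ a i j)
    (hzero : ∀ j, ∃ i, a i j = 0 ∧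
      RankGe A {w | Along (F j) w ∧ ∀ j', a i j' ≠ 0 → Along (F j') w} 2)
    (c : Fin r → K) (hc : ∀ i, c i ≠ 0)
    (hsum : ∀ x : Fin (n + 1) → K, ∑ i, ∑ j, (A i j : K) * x i * x j = 0 →
      ∑ i, point F a c x i = 0)
    (θ : ℝ) (hθ0 : 0 < θ) (hθ : θ < ∑ j, (m j : ℝ)) :
    ∃ ε : ℝ, 0 < ε ∧ ∃ C : ℝ, ∀ B : ℕ, 1 ≤ B → ∃ Z : Finset (ℙ K (Fin (n + 1) → K)),
      (Z.card : ℝ) ≤ C * (B : ℝ) ^ ((n : ℝ) - 1 - ε) ∧
      ∀ P : ℙ K (Fin (n + 1) → K), ∑ i, ∑ j, (A i j : K) * P.rep i * P.rep j = 0 →
        P.mulHeight ≤ B → P ∉ Z →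
        (∀ i, point F a c P.rep i ≠ 0) ∧ ∑ i, point F a c P.rep i = 0 ∧
        θ * Real.log B / Module.finrank ℚ K ≤ radical (point F a c P.rep) + C ∧
        height (point F a c P.rep) ≤ D / θ * radical (point F a c P.rep) + C := by
  have hd0 : (1 : ℝ) ≤ Module.finrank ℚ K := by
    exact_mod_cast (Module.finrank_pos (R := ℚ) (M := K))
  obtain ⟨ε, hε, C, h⟩ := R366.AB.main_quad hA hrank F k m hhom hirr hdist hm hpair D a ha hpos hzero
    c hc θ hθ0 hθ
  refine ⟨ε, hε, max C 0, fun B hB => ?_⟩
  obtain ⟨Z, hZ, h1⟩ := h B hB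
  refine ⟨Z, hZ.trans (mul_le_mul_of_nonneg_right (le_max_left _ _) (by positivity)), ?_⟩
  intro P hPA hP hPZ
  obtain ⟨h2, h3, h4⟩ := h1 P hPA hP hPZ
  have e1 : R366.AB.pt F a c P.rep = point F a c P.rep := rfl
  have e2 : radical (point F a c P.rep) = R366.AB.radK (point F a c P.rep) / Module.finrank ℚ K := rfl
  rw [e1] at h2 h3 h4
  have h5 : C / Module.finrank ℚ K ≤ max C 0 := by
    rw [div_le_iff₀ (by linarith)]
    have h6 := le_max_left C 0
    have h7 := le_max_right C 0
    nlinarith
  refine ⟨h2, hsum _ hPA, ?_, ?_⟩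
  · rw [e2]
    have h6 := div_le_div_of_nonneg_right h3 (by linarith : (0 : ℝ) ≤ Module.finrank ℚ K)
    rw [add_div] at h6
    linarith
  · rw [e2, height]
    have h6 := div_le_div_of_nonneg_right h4 (by linarith : (0 : ℝ) ≤ Module.finrank ℚ K)
    rw [add_div, mul_div_assoc] at h6
    linarith

end Pool.Agent.Results.MP_7475bd_nt.ImagesOfQuadrics
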