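import Mathlib
import Pool.Agent.R343.LU3

set_option autoImplicit false

/-!
# The abcd conjecture over `ℚ` for points with compressible digits

A word of letters is cut into `z` phrases (`LZ a N z`, Lempel and Ziv) if each phrase is a single
letter, or a (possibly empty) copy of a block that begins further to the left; the block may
overlap the phrase. For instance the word `u v ^ m w` has a number of phrases which does not depend
on `m`.

1. Let `m ≥ 0`, `p`, a map `τ` from `{0, …, p - 1}` to `{0, …, m + 1}`, exponents `e i ≥ 1`, bases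
   `b i ≥ 2`, `z`, a finitely generated group `Γ` of rational numbers and `ε > 0` be given. There are
   a nonzero form `G` over `ℚ` in `m + 1` variables and `K > 0` such that for every relation
   `A 0 + … + A (m + 1) = 0` between nonzero integers with `G (A 0, …, A m) ≠ 0` and
   `A σ = w σ * ∏_{τ i = σ} x i ^ (e i)`, `w σ ∈ Γ`, where the digits of each `x i` in base `b i`, read
   upwards or downwards, form a word with `z` phrases,

   `|A σ| ^ (1 - ε) ≤ K gcd (A 0, …, A (m + 1)) ∏_i |x i|` for all `σ`.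

   There is no restriction on the lengths of the phrases and of their periods.

2. The same if each `x i` is a sum of `r` products `g y`, `g ∈ Γ`, `y` the value in base `b i j` of a
   word with `z` phrases of integral letters of absolute value at most `B` and of length `N`,
   `N log b ≤ M (1 + ∑ log |A σ|)`.

The proof: if no period of a phrase has a size between `δ' N` and `δ N`, then a product `D` of
numbers `b ^ π - 1` with `log D` at most a small multiple of `N` makes all `D x i` sums of boundedly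
many powers of the bases with small coefficients; one of finitely many scales works. The inequality
for sums of `S`-units (SparseABCD) is extended to such numbers with a common denominator.
-/

namespace Pool.Agent.Results.MP_7475bd_nt.LempelZivTerms

open Finset Pool.Agent.R343.LP Pool.Agent.R343.LT

/-- The result: (1) digits, (2) sums of products of elements of `Γ` and values of words. -/
theorem result :
    (∀ (m p : ℕ) (τ : Fin p → Fin (m + 2)) (e : Fin p → ℕ), (∀ i, 1 ≤ e i) →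
      ∀ (Γ : Subgroup ℚˣ), Γ.FG → ∀ b : Fin p → ℕ, (∀ i, 2 ≤ b i) → ∀ (z : ℕ) (ε : ℝ), 0 < ε →
      ∃ (G : MvPolynomial (Fin (m + 1)) ℚ) (K : ℝ), (∃ d, G.IsHomogeneous d) ∧ G ≠ 0 ∧ 0 < K ∧
        ∀ (x : Fin p → ℤ) (w A : Fin (m + 2) → ℤ), (∀ σ, ∃ g ∈ Γ, (w σ : ℚ) = (g : ℚ)) →
          (∀ σ, A σ = w σ * ∏ i with τ i = σ, x i ^ (e i)) → (∀ σ, A σ ≠ 0) →
          ∑ σ, A σ = 0 → (∀ i, LZDigits (b i) z (x i)) →
          MvPolynomial.aeval (fun i => (A (Fin.castSucc i) : ℚ)) G ≠ 0 →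
          ∀ σ, |(A σ : ℝ)| ^ (1 - ε) ≤
            K * (|((Finset.univ.gcd A : ℤ) : ℝ)| * ∏ i, |(x i : ℝ)|)) ∧
    (∀ (m p r : ℕ) (τ : Fin p → Fin (m + 2)) (e : Fin p → ℕ), (∀ i, 1 ≤ e i) →
      ∀ (Γ : Subgroup ℚˣ), Γ.FG → ∀ b : Fin p → Fin r → ℕ, (∀ i j, 2 ≤ b i j) → ∀ (z : ℕ) (B : ℤ),
      0 ≤ B → ∀ M ε : ℝ, 0 ≤ M → 0 < ε →
      ∃ (G : MvPolynomial (Fin (m + 1)) ℚ) (K : ℝ), (∃ d, G.IsHomogeneous d) ∧ G ≠ 0 ∧ 0 < K ∧
        ∀ (x : Fin p → ℤ) (w A : Fin (m + 2) → ℤ), (∀ σ, ∃ g ∈ Γ, (w σ : ℚ) = (g : ℚ)) →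
          (∀ σ, A σ = w σ * ∏ i with τ i = σ, x i ^ (e i)) → (∀ σ, A σ ≠ 0) →
          ∑ σ, A σ = 0 →
          (∀ i, CompR Γ (b i) z B (M * (1 + ∑ σ, Real.log (max 1 |(A σ : ℝ)|))) (x i)) →
          MvPolynomial.aeval (fun i => (A (Fin.castSucc i) : ℚ)) G ≠ 0 →
          ∀ σ, |(A σ : ℝ)| ^ (1 - ε) ≤
            K * (|((Finset.univ.gcd A : ℤ) : ℝ)| * ∏ i, |(x i : ℝ)|)) := by
  have key : ∀ (m p r : ℕ) (τ : Fin p → Fin (m + 2)) (e : Fin p → ℕ), (∀ i, 1 ≤ e i) →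
      ∀ (Γ : Subgroup ℚˣ), Γ.FG → ∀ b : Fin p → Fin r → ℕ, (∀ i j, 2 ≤ b i j) → ∀ (z : ℕ) (B : ℤ),
      0 ≤ B → ∀ M ε : ℝ, 0 ≤ M → 0 < ε →
      ∃ (G : MvPolynomial (Fin (m + 1)) ℚ) (K : ℝ), (∃ d, G.IsHomogeneous d) ∧ G ≠ 0 ∧ 0 < K ∧
        ∀ (x : Fin p → ℤ) (w A : Fin (m + 2) → ℤ), (∀ σ, ∃ g ∈ Γ, (w σ : ℚ) = (g : ℚ)) →
          (∀ σ, A σ = w σ * ∏ i with τ i = σ, x i ^ (e i)) → (∀ σ, A σ ≠ 0) →
          ∑ σ, A σ = 0 →
          (∀ i, CompR Γ (b i) z B (M * (1 + ∑ σ, Real.log (max 1 |(A σ : ℝ)|))) (x i)) →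
          MvPolynomial.aeval (fun i => (A (Fin.castSucc i) : ℚ)) G ≠ 0 →
          ∀ σ, |(A σ : ℝ)| ^ (1 - ε) ≤
            K * (|((Finset.univ.gcd A : ℤ) : ℝ)| * ∏ i, |(x i : ℝ)|) := by
    intro m p r τ e he Γ hΓ b hb z B hB M ε hM hε
    obtain ⟨G, C, hGh, hG0, hC⟩ := abcdLZ m p r τ e he Γ hΓ b hb z B hB M ε hM hε
    refine ⟨G, Real.exp C, hGh, hG0, Real.exp_pos _, ?_⟩
    intro x w A hw hA hA0 hsum hx hG σ
    have h1 := hC x w A hw hA hA0 hsum hx hG σ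
    have hg0 : Finset.univ.gcd A ≠ 0 := fun h =>
      hA0 0 (Finset.gcd_eq_zero_iff.1 h 0 (Finset.mem_univ _))
    have hg1 : (0 : ℝ) < |((Finset.univ.gcd A : ℤ) : ℝ)| := abs_pos.2 (by exact_mod_cast hg0)
    have hx1 : ∀ i, (0 : ℝ) < |(x i : ℝ)| := fun i =>
      abs_pos.2 (by exact_mod_cast (x_ne_zero' he hA hA0 i).1)
    have hpx : (0 : ℝ) < ∏ i, |(x i : ℝ)| := Finset.prod_pos fun i _ => hx1 i
    refine pow_of_log (hA0 σ) (by positivity) ?_
    rwa [Real.log_mul hg1.ne' hpx.ne', Real.log_prod (fun i _ => (hx1 i).ne')]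
  refine ⟨fun m p τ e he Γ hΓ b hb z ε hε => ?_, key⟩
  have hlb : ∀ i, 0 ≤ Real.log (b i) := fun i => Real.log_nonneg (by
    have : 1 ≤ b i := by have := hb i; omega
    exact_mod_cast this)
  obtain ⟨G, K, hGh, hG0, hK0, hK⟩ := key m p 1 τ e he Γ hΓ (fun i _ => b i) (fun i _ => hb i) z
    ((∑ i, b i : ℕ) : ℤ) (Int.natCast_nonneg _) (1 + ∑ i, Real.log (b i)) ε
    (by have := Finset.sum_nonneg fun i (_ : i ∈ Finset.univ) => hlb i; linarith) hε
  exact ⟨G, K, hGh, hG0, hK0, fun x w A hw hA hA0 hsum hx hG => hK x w A hw hA hA0 hsum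
    (fun i => digits_comp he hb Γ hA hA0 hx i) hG⟩

end Pool.Agent.Results.MP_7475bd_nt.LempelZivTerms
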