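import Pool.Agent.R425.MK.Lim
import Pool.Agent.Results.MP_44a246_nt.ManyTermAbc

/-!
# The `n`-term abc inequality over a number field at the points near a given point

Let `K` be a number field of degree `d`, `n ≥ 3`, `𝓗 : Z_1 + ⋯ + Z_n = 0`, and let `𝓩` be the closed
subset of `𝓗` where a proper sub-sum of the coordinates vanishes. Let `φ` be any map from the
`K`-points to a metric space `X`, for example the completion of `𝓗 (K)` at a place of `K`. Outside a
set of points `ξ` of `X` of Hausdorff dimension at most `d (1 - 1 / binom(n, ⌊n/2⌋)) / τ`, all points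
`P` of `𝓗(K)` outside `𝓩` with `dist (φ P) ξ ≤ A * exp (- τ h (P))` satisfy
`h (P) < rad (P) + C`.
-/

set_option autoImplicit false

namespace Pool.Agent.Results.MP_7475bd_nt.PointsNearAPoint

open Filter Topology MeasureTheory NumberField IsDedekindDomain Module

section defs

variable {K : Type} [Field K] [NumberField K] {n : ℕ}

/-- the absolute logarithmic height `h (P)` of a point of projective space over `K` -/
noncomputable def h (P : Projectivization K (Fin n → K)) : ℝ :=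
  P.logHeight / finrank ℚ K

/-- `rad (P)`: the sum of the `log N(v) / [K : ℚ]` over the primes `v` at which the coordinates of
`P` do not all have the same absolute value -/
noncomputable def rad (P : Projectivization K (Fin n → K)) : ℝ :=
  (∑ᶠ v ∈ {v : HeightOneSpectrum (𝓞 K) |
      ∃ i j, FinitePlace.mk v (P.rep i) ≠ FinitePlace.mk v (P.rep j)},
    Real.log (Ideal.absNorm v.asIdeal : ℝ)) / finrank ℚ K

/-- the points of `𝓗 : Z_1 + ⋯ + Z_n = 0` outside the closed subset `𝓩` where a proper sub-sum of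
the coordinates vanishes -/
def OffZ (P : Projectivization K (Fin n → K)) : Prop :=
  ∑ i, P.rep i = 0 ∧ ∀ I : Finset (Fin n), I.Nonempty → I ≠ Finset.univ → ∑ i ∈ I, P.rep i ≠ 0

/-- the point `P` of `𝓗 (K) ∖ 𝓩` lies near `ξ` (through `φ`), with exponent `τ` and constant `A` -/
def Near {X : Type} [MetricSpace X] (φ : Projectivization K (Fin n → K) → X) (A τ : ℝ) (ξ : X)
    (P : Projectivization K (Fin n → K)) : Prop :=
  OffZ P ∧ dist (φ P) ξ ≤ A * Real.exp (-τ * h P)

end defs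

/-- `1 - 1 / binom(n, ⌊n/2⌋)` -/
noncomputable def κ (n : ℕ) : ℝ := 1 - 1 / (n.choose (n / 2) : ℝ)

lemma κ_nonneg (n : ℕ) : 0 ≤ κ n := by
  unfold κ
  have h1 : 1 ≤ n.choose (n / 2) := Nat.choose_pos (Nat.div_le_self n 2)
  have h2 : (1 : ℝ) ≤ (n.choose (n / 2) : ℝ) := by exact_mod_cast h1
  rw [sub_nonneg, div_le_one (by linarith)]
  exact h2

section basic

variable {K : Type} [Field K] [NumberField K] {n : ℕ} {P : Projectivization K (Fin n → K)}

lemma OffZ.ne_zero (hn : 3 ≤ n) (hP : OffZ P) (i : Fin n) : P.rep i ≠ 0 := by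
  have h := hP.2 {i} (Finset.singleton_nonempty i) ?_
  · simpa using h
  · intro h
    have h1 := congrArg Finset.card h
    rw [Finset.card_singleton, Finset.card_univ, Fintype.card_fin] at h1
    omega

lemma finrank_pos' : (0 : ℝ) < finrank ℚ K := by exact_mod_cast finrank_pos

lemma rad_nonneg (P : Projectivization K (Fin n → K)) : 0 ≤ rad P := by
  unfold rad
  refine div_nonneg (finsum_nonneg fun v => finsum_nonneg fun _ => ?_) (Nat.cast_nonneg _)
  exact Real.log_natCast_nonneg _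

lemma h_nonneg (P : Projectivization K (Fin n → K)) : 0 ≤ h P :=
  div_nonneg P.logHeight_nonneg (Nat.cast_nonneg _)

/-- the truncated counting function of the starting library is `[K : ℚ] rad` -/
lemma truncated_eq (hn : 3 ≤ n) (hP : OffZ P) :
    MP_44a246_nt.ManyTermAbc.truncated ∅ P.rep = finrank ℚ K * rad P := by
  unfold rad MP_44a246_nt.ManyTermAbc.truncated
  rw [mul_div_cancel₀ _ (finrank_pos' (K := K)).ne']
  have hset : {v : HeightOneSpectrum (𝓞 K) | v ∉ (∅ : Set (HeightOneSpectrum (𝓞 K))) ∧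
      0 < MP_44a246_nt.ManyTermAbc.localHeight v P.rep} =
      {v : HeightOneSpectrum (𝓞 K) |
        ∃ i j, FinitePlace.mk v (P.rep i) ≠ FinitePlace.mk v (P.rep j)} := by
    ext v
    simp only [Set.mem_empty_iff_false, not_false_eq_true, true_and, Set.mem_ofPred_eq]
    set x : Fin n → ℝ := fun i => FinitePlace.mk v (P.rep i) with hx
    have hpos : ∀ i, 0 < x i := fun i => by
      have h1 : FinitePlace.mk v (P.rep i) ≠ 0 := by
        rw [map_ne_zero]
        exact hP.ne_zero hn i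
      exact lt_of_le_of_ne (apply_nonneg _ _) (Ne.symm h1)
    have hle : ∀ i, x i ≤ ⨆ j, x j := fun i => le_ciSup (Set.finite_range _).bddAbove i
    have hterm : ∀ i, 0 ≤ Real.log ((⨆ j, x j) / x i) := fun i =>
      Real.log_nonneg ((one_le_div (hpos i)).2 (hle i))
    have hlh : MP_44a246_nt.ManyTermAbc.localHeight v P.rep =
        ∑ i, Real.log ((⨆ j, x j) / x i) := rfl
    rw [hlh]
    constructor
    · intro hlt
      by_contra hcon
      push Not at hcon
      have h0 : ∀ i, Real.log ((⨆ j, x j) / x i) = 0 := by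
        intro i
        haveI : Nonempty (Fin n) := ⟨i⟩
        have h1 : (⨆ j, x j) = x i := by
          have h2 : ∀ j, x j = x i := fun j => hcon j i
          simp only [h2]
          exact ciSup_const
        rw [h1, div_self (hpos i).ne', Real.log_one]
      rw [Finset.sum_eq_zero fun i _ => h0 i] at hlt
      exact lt_irrefl _ hlt
    · rintro ⟨i, j, hij⟩
      have hij' : x i ≠ x j := hij
      have key : ∀ i j, x i < x j → 0 < ∑ i, Real.log ((⨆ j, x j) / x i) := by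
        intro i j hlt
        refine Finset.sum_pos' (fun i _ => hterm i) ⟨i, Finset.mem_univ i, ?_⟩
        apply Real.log_pos
        rw [one_lt_div (hpos i)]
        exact lt_of_lt_of_le hlt (hle j)
      rcases lt_or_gt_of_ne hij' with h1 | h1
      · exact key i j h1
      · exact key j i h1
  rw [hset]

lemma exp_h (P : Projectivization K (Fin n → K)) (τ : ℝ) :
    Real.exp (-τ * h P) = P.mulHeight ^ (-(τ / finrank ℚ K)) := by
  unfold h
  rw [Projectivization.logHeight_eq_log_mulHeight, Real.rpow_def_of_pos P.mulHeight_pos]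
  congr 1
  ring

end basic

section count

variable (K : Type) [Field K] [NumberField K] {n : ℕ}

/-- counting a set of points through the subtype -/
lemma count_subtype {T : Type} {H : T → ℝ} {Q : T → Prop} {B C : ℝ}
    (hfin : {x | Q x ∧ H x ≤ B}.Finite)
    (hK : (({x | Q x ∧ H x ≤ B}.ncard : ℕ) : ℝ) ≤ C) :
    {i : {x // Q x} | H i.1 ≤ B}.Finite ∧
      (({i : {x // Q x} | H i.1 ≤ B}.ncard : ℕ) : ℝ) ≤ C := by
  have himg : Subtype.val '' {i : {x // Q x} | H i.1 ≤ B} = {x | Q x ∧ H x ≤ B} := by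
    ext x
    simp only [Set.mem_image, Set.mem_ofPred_eq, Subtype.exists, exists_and_left, exists_prop,
      exists_eq_right_right]
    tauto
  have hinj : Set.InjOn Subtype.val {i : {x // Q x} | H i.1 ≤ B} :=
    Subtype.val_injective.injOn
  constructor
  · refine Set.Finite.of_finite_image ?_ hinj
    rw [himg]
    exact hfin
  · rw [← hinj.ncard_image, himg]
    exact hK

lemma countable_of_finite {ι : Type} (H : ι → ℝ) (hH : ∀ B : ℝ, 1 ≤ B → {i | H i ≤ B}.Finite) :
    Countable ι := by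
  rw [← Set.countable_univ_iff]
  have h1 : (Set.univ : Set ι) ⊆ ⋃ k : ℕ, {i | H i ≤ (k : ℝ) + 1} := by
    intro i _
    obtain ⟨k, hk⟩ := exists_nat_ge (H i)
    exact Set.mem_iUnion.2 ⟨k, by
      simp only [Set.mem_ofPred_eq]
      linarith⟩
  refine Set.Countable.mono h1 (Set.countable_iUnion fun k => (hH _ ?_).countable)
  have : (0 : ℝ) ≤ k := Nat.cast_nonneg k
  linarith

/-- the bad points -/
def Bad (n : ℕ) (M c : ℝ) (P : Projectivization K (Fin n → K)) : Prop :=
  OffZ P ∧ ¬ h P < M * rad P + c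

lemma hcount (hn : 3 ≤ n) {M : ℝ} (hM : 0 < M) (c : ℝ) :
    ∀ ε : ℝ, 0 < ε → ∃ C : ℝ, ∀ B : ℝ, 1 ≤ B →
      {i : {P // Bad K n M c P} | i.1.mulHeight ≤ B}.Finite ∧
      (({i : {P // Bad K n M c P} | i.1.mulHeight ≤ B}.ncard : ℕ) : ℝ) ≤
        C * B ^ (κ n / M + ε) := by
  intro ε hε
  obtain ⟨C, hC⟩ := MP_44a246_nt.ManyTermAbc.result K ∅ Set.finite_empty n hn (1 / M)
    (-(c * finrank ℚ K / M)) ε (by positivity) hε
  refine ⟨C, fun B hB => ?_⟩
  obtain ⟨h1, h2⟩ := hC B hB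
  have hsub : {P | Bad K n M c P ∧ P.mulHeight ≤ B} ⊆
      {P : Projectivization K (Fin n → K) | ∑ i, P.rep i = 0 ∧
        (∀ I : Finset (Fin n), I.Nonempty → I ≠ Finset.univ → ∑ i ∈ I, P.rep i ≠ 0) ∧
        P.mulHeight ≤ B ∧ MP_44a246_nt.ManyTermAbc.truncated ∅ P.rep ≤
          1 / M * P.logHeight + -(c * finrank ℚ K / M)} := by
    rintro P ⟨⟨h3, h4⟩, h5⟩
    refine ⟨h3.1, h3.2, h5, ?_⟩
    rw [truncated_eq hn h3]
    rw [not_lt] at h4
    have hd : (0 : ℝ) < finrank ℚ K := finrank_pos'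
    have h6 : h P * finrank ℚ K = P.logHeight := by
      unfold h
      rw [div_mul_cancel₀ _ hd.ne']
    rw [← h6]
    have h7 : 1 / M * (h P * finrank ℚ K) + -(c * finrank ℚ K / M) =
        finrank ℚ K * (h P - c) / M := by
      field_simp
      ring
    rw [h7, le_div_iff₀ hM]
    nlinarith
  refine count_subtype (H := fun P : Projectivization K (Fin n → K) => P.mulHeight)
    (h1.subset hsub) ?_
  have h8 : ((({P | Bad K n M c P ∧ P.mulHeight ≤ B}.ncard : ℕ) : ℝ)) ≤
      ((({P : Projectivization K (Fin n → K) | ∑ i, P.rep i = 0 ∧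
        (∀ I : Finset (Fin n), I.Nonempty → I ≠ Finset.univ → ∑ i ∈ I, P.rep i ≠ 0) ∧
        P.mulHeight ≤ B ∧ MP_44a246_nt.ManyTermAbc.truncated ∅ P.rep ≤
          1 / M * P.logHeight + -(c * finrank ℚ K / M)}.ncard : ℕ) : ℝ)) := by
    exact_mod_cast Set.ncard_le_ncard hsub h1
  refine h8.trans (h2.trans (le_of_eq ?_))
  unfold κ
  rw [one_div_mul_eq_div]

end count

section general

variable {K : Type} [Field K] [NumberField K] {n : ℕ} {X : Type} [MetricSpace X]

/-- transfer of the finiteness from the subtype, and from a natural number `A` to a real one -/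
lemma finite_of_subtype {Q : Projectivization K (Fin n → K) → Prop}
    (φ : Projectivization K (Fin n → K) → X) (τ : ℝ) (ξ : X) {A A' : ℝ} (hA : A ≤ A')
    (hf : {i : {P // Q P} | dist (φ i.1) ξ ≤ A' * i.1.mulHeight ^ (-(τ / finrank ℚ K))}.Finite) :
    {P | Near φ A τ ξ P ∧ Q P}.Finite := by
  refine (hf.image Subtype.val).subset ?_
  rintro P ⟨⟨-, h2⟩, h3⟩
  refine ⟨⟨P, h3⟩, ?_, rfl⟩
  simp only [Set.mem_ofPred_eq]
  rw [exp_h] at h2
  exact h2.trans (mul_le_mul_of_nonneg_right hA (Real.rpow_nonneg P.mulHeight_pos.le _))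

/-- the dimension bound with fixed `c` -/
theorem dim_part (hn : 3 ≤ n) {M τ : ℝ} (hM : 0 < M) (hτ : 0 < τ) (c : ℝ)
    (φ : Projectivization K (Fin n → K) → X) :
    ∃ E : Set X, dimH E ≤ ENNReal.ofReal (finrank ℚ K * κ n / (M * τ)) ∧
      ∀ ξ : X, ξ ∉ E → ∀ A : ℝ, {P | Near φ A τ ξ P ∧ Bad K n M c P}.Finite := by
  have hd : (0 : ℝ) < finrank ℚ K := finrank_pos'
  have hc := hcount K hn hM c
  haveI : Countable {P // Bad K n M c P} :=
    countable_of_finite (fun i : {P // Bad K n M c P} => i.1.mulHeight) fun B hB => by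
      obtain ⟨C, hC⟩ := hc 1 one_pos
      exact (hC B hB).1
  refine ⟨⋃ k : ℕ, {ξ : X | {i : {P // Bad K n M c P} |
    dist (φ i.1) ξ ≤ ((k : ℝ) + 1) * i.1.mulHeight ^ (-(τ / finrank ℚ K))}.Infinite}, ?_, ?_⟩
  · rw [dimH_iUnion]
    refine iSup_le fun k => ?_
    refine (Pool.Agent.R425.MK.dimH_balls (fun i : {P // Bad K n M c P} => φ i.1)
      (fun i => i.1.mulHeight) (fun i => i.1.one_le_mulHeight)
      (div_nonneg (κ_nonneg n) hM.le) (div_pos hτ hd) (by positivity) hc).trans (le_of_eq ?_)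
    congr 1
    field_simp
  · intro ξ hξ A
    obtain ⟨k, hk⟩ := exists_nat_ge A
    rw [Set.mem_iUnion] at hξ
    push Not at hξ
    have h := hξ k
    rw [Set.mem_ofPred_eq, Set.not_infinite] at h
    exact finite_of_subtype φ τ ξ (by linarith) h

lemma bad_mono {M c c' : ℝ} {P : Projectivization K (Fin n → K)} (hc : c' ≤ c)
    (hb : Bad K n M c P) : Bad K n M c' P := by
  refine ⟨hb.1, ?_⟩
  have := hb.2
  rw [not_lt] at this ⊢
  linarith

/-- the dimension bound for all `c` at once -/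
theorem dim_all (hn : 3 ≤ n) {M τ : ℝ} (hM : 0 < M) (hτ : 0 < τ)
    (φ : Projectivization K (Fin n → K) → X) :
    ∃ E : Set X, dimH E ≤ ENNReal.ofReal (finrank ℚ K * κ n / (M * τ)) ∧
      ∀ ξ : X, ξ ∉ E → ∀ A c : ℝ, {P | Near φ A τ ξ P ∧ ¬ h P < M * rad P + c}.Finite := by
  have h := fun k : ℕ => dim_part (K := K) hn hM hτ (-(k : ℝ)) φ
  choose E h1 h2 using h
  refine ⟨⋃ k, E k, ?_, fun ξ hξ A c => ?_⟩
  · rw [dimH_iUnion]
    exact iSup_le h1
  · obtain ⟨k, hk⟩ := exists_nat_ge (-c)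
    rw [Set.mem_iUnion] at hξ
    push Not at hξ
    refine (h2 k ξ (hξ k) A).subset ?_
    rintro P ⟨h3, h4⟩
    exact ⟨h3, bad_mono (by linarith) ⟨h3.1, h4⟩⟩

/-- almost everywhere -/
theorem ae_all' [MeasurableSpace X] (μ : Measure X) {C₀ m : ℝ}
    (hμ : ∀ (x : X) (r : ℝ), 0 < r → μ (Metric.closedBall x r) ≤ ENNReal.ofReal (C₀ * r ^ m))
    (hn : 3 ≤ n) {M τ : ℝ} (hM : 0 < M) (hlt : finrank ℚ K * κ n / M < τ * m)
    (φ : Projectivization K (Fin n → K) → X) :
    ∀ᵐ ξ ∂μ, ∀ A c : ℝ, {P | Near φ A τ ξ P ∧ ¬ h P < M * rad P + c}.Finite := by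
  have hd : (0 : ℝ) < finrank ℚ K := finrank_pos'
  have h : ∀ k l : ℕ, ∀ᵐ ξ ∂μ, {i : {P // Bad K n M (-(l : ℝ)) P} |
      dist (φ i.1) ξ ≤ ((k : ℝ) + 1) * i.1.mulHeight ^ (-(τ / finrank ℚ K))}.Finite := by
    intro k l
    have hc := hcount K hn hM (-(l : ℝ))
    haveI : Countable {P // Bad K n M (-(l : ℝ)) P} :=
      countable_of_finite (fun i : {P // Bad K n M (-(l : ℝ)) P} => i.1.mulHeight) fun B hB => by
        obtain ⟨C, hC⟩ := hc 1 one_pos
        exact (hC B hB).1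
    refine Pool.Agent.R425.MK.ae_balls μ hμ (fun i : {P // Bad K n M (-(l : ℝ)) P} => φ i.1)
      (fun i => i.1.mulHeight) (fun i => i.1.one_le_mulHeight)
      (s := κ n / M) (div_nonneg (κ_nonneg n) hM.le) ?_ (by positivity) hc
    rw [div_mul_eq_mul_div, lt_div_iff₀ hd]
    calc κ n / M * finrank ℚ K = finrank ℚ K * κ n / M := by ring
      _ < τ * m := hlt
  filter_upwards [ae_all_iff.2 fun k => ae_all_iff.2 (h k)] with ξ hξ A c
  obtain ⟨k, hk⟩ := exists_nat_ge A
  obtain ⟨l, hl⟩ := exists_nat_ge (-c)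
  refine (finite_of_subtype φ τ ξ (by linarith : A ≤ (k : ℝ) + 1) (hξ k l)).subset ?_
  rintro P ⟨h3, h4⟩
  exact ⟨h3, bad_mono (by linarith) ⟨h3.1, h4⟩⟩

lemma Near.mono {φ : Projectivization K (Fin n → K) → X} {A A' τ τ' : ℝ} {ξ : X}
    {P : Projectivization K (Fin n → K)} (hP : Near φ A τ ξ P) (hA : A ≤ A') (hA' : 0 ≤ A')
    (hτ : τ' ≤ τ) : Near φ A' τ' ξ P := by
  refine ⟨hP.1, hP.2.trans ?_⟩
  calc A * Real.exp (-τ * h P) ≤ A' * Real.exp (-τ * h P) :=
        mul_le_mul_of_nonneg_right hA (Real.exp_pos _).le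
    _ ≤ A' * Real.exp (-τ' * h P) := by
        refine mul_le_mul_of_nonneg_left (Real.exp_le_exp.2 ?_) hA'
        nlinarith [h_nonneg P]

/-- finitely many exceptions are absorbed by the constant -/
lemma absorb {T : Type} {f g : T → ℝ} {Q : T → Prop} (hfin : {P | Q P ∧ ¬ f P < g P}.Finite) :
    ∃ C : ℝ, ∀ P, Q P → f P < g P + C := by
  obtain ⟨B, hB⟩ := (hfin.image fun P => f P - g P).bddAbove
  refine ⟨max B 0 + 1, fun P hP => ?_⟩
  by_cases hg : f P < g P
  · have := le_max_right B 0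
    linarith
  · have h1 : f P - g P ≤ B := hB ⟨P, ⟨hP, hg⟩, rfl⟩
    have := le_max_left B 0
    linarith

/-- outside a set of dimension zero the inequality holds with some constants -/
theorem part_one (hn : 3 ≤ n) (φ : Projectivization K (Fin n → K) → X) :
    ∃ E : Set X, dimH E = 0 ∧ ∀ ξ : X, ξ ∉ E → ∀ A τ : ℝ, 0 < τ →
      ∃ M C : ℝ, ∀ P : Projectivization K (Fin n → K), Near φ A τ ξ P → h P < M * rad P + C := by
  have hE : ∀ k j : ℕ, ∃ E : Set X,
      dimH E ≤ ENNReal.ofReal (finrank ℚ K * κ n / (((j : ℝ) + 1) * (1 / ((k : ℝ) + 1)))) ∧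
      ∀ ξ : X, ξ ∉ E → ∀ A c : ℝ, {P | Near φ A (1 / ((k : ℝ) + 1)) ξ P ∧
        ¬ h P < ((j : ℝ) + 1) * rad P + c}.Finite :=
    fun k j => dim_all (K := K) hn (by positivity) (by positivity) φ
  choose E hdim hgood using hE
  refine ⟨⋃ k, ⋂ j, E k j, ?_, ?_⟩
  · rw [dimH_iUnion, ENNReal.iSup_eq_zero]
    intro k
    rw [← nonpos_iff_eq_zero]
    have hlim : Tendsto (fun j : ℕ =>
        ENNReal.ofReal (finrank ℚ K * κ n / (((j : ℝ) + 1) * (1 / ((k : ℝ) + 1)))))
        atTop (𝓝 0) := by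
      rw [← ENNReal.ofReal_zero]
      apply ENNReal.tendsto_ofReal
      refine tendsto_const_nhds.div_atTop ?_
      exact Tendsto.atTop_mul_const (by positivity)
        (tendsto_atTop_add_const_right _ _ tendsto_natCast_atTop_atTop)
    exact ge_of_tendsto' hlim fun j => (dimH_mono (Set.iInter_subset _ j)).trans (hdim k j)
  · intro ξ hξ A τ hτ
    obtain ⟨k, hk⟩ := exists_nat_ge (1 / τ)
    have hk' : 1 / ((k : ℝ) + 1) ≤ τ := by
      rw [div_le_iff₀ (by positivity)]
      rw [div_le_iff₀ hτ] at hk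
      nlinarith
    have h1 : ξ ∉ ⋂ j, E k j := fun hcon => hξ (Set.mem_iUnion.2 ⟨k, hcon⟩)
    rw [Set.mem_iInter] at h1
    push Not at h1
    obtain ⟨j, hj⟩ := h1
    have h2 := hgood k j ξ hj (max A 0) 0
    simp only [add_zero] at h2
    obtain ⟨C, hC⟩ := absorb h2
    exact ⟨(j : ℝ) + 1, C, fun P hP => hC P (hP.mono (le_max_left _ _) (le_max_right _ _) hk')⟩

end general

/-- **Theorem.** Let `K` be a number field of degree `d`, `n ≥ 3`, `𝓗 : Z_1 + ⋯ + Z_n = 0`, and let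
`𝓩` be the closed subset of `𝓗` where a proper sub-sum of the coordinates vanishes. Let `φ` be any
map from the `K`-points of projective space to a metric space `X`.
(1) Outside a set of points `ξ` of `X` of Hausdorff dimension zero, for all `A` and `τ > 0` there are
`M` and `C` such that all `P ∈ 𝓗 (K) ∖ 𝓩` with `dist (φ P) ξ ≤ A * exp (- τ h (P))` satisfy
`h (P) < M rad (P) + C`.
(2) For all `τ > 0`, outside a set of `ξ` of dimension at most
`d (1 - 1 / binom(n, ⌊n/2⌋)) / τ`, for all `A` and `ε ≥ 0` there is `C` such that all these `P` satisfy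
`h (P) < (1 + ε) rad (P) + C`.
(3) For all `M, τ > 0`, outside a set of `ξ` of dimension at most
`d (1 - 1 / binom(n, ⌊n/2⌋)) / (M τ)`, for all `A` and `c` all but finitely many of these `P` satisfy
`h (P) < M rad (P) + c`.
(4) If `μ` is a measure on `X` with `μ (ball of radius r) ≤ C₀ r ^ m`, the conclusion of (3) holds for
`μ`-almost every `ξ` when `d (1 - 1 / binom(n, ⌊n/2⌋)) / M < τ m`. -/
theorem result (K : Type) [Field K] [NumberField K] (n : ℕ) (hn : 3 ≤ n)
    (X : Type) [MetricSpace X] (φ : Projectivization K (Fin n → K) → X) :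
    (∃ E : Set X, dimH E = 0 ∧ ∀ ξ : X, ξ ∉ E → ∀ A τ : ℝ, 0 < τ →
      ∃ M C : ℝ, ∀ P, Near φ A τ ξ P → h P < M * rad P + C) ∧
    (∀ τ : ℝ, 0 < τ → ∃ E : Set X,
      dimH E ≤ ENNReal.ofReal (finrank ℚ K * (1 - 1 / (n.choose (n / 2) : ℝ)) / τ) ∧
      ∀ ξ : X, ξ ∉ E → ∀ A ε : ℝ, 0 ≤ ε →
        ∃ C : ℝ, ∀ P, Near φ A τ ξ P → h P < (1 + ε) * rad P + C) ∧
    (∀ M τ : ℝ, 0 < M → 0 < τ → ∃ E : Set X,
      dimH E ≤ ENNReal.ofReal (finrank ℚ K * (1 - 1 / (n.choose (n / 2) : ℝ)) / (M * τ)) ∧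
      ∀ ξ : X, ξ ∉ E → ∀ A c : ℝ, {P | Near φ A τ ξ P ∧ ¬ h P < M * rad P + c}.Finite) ∧
    (∀ (_ : MeasurableSpace X) (μ : Measure X) (C₀ m : ℝ),
      (∀ (x : X) (r : ℝ), 0 < r → μ (Metric.closedBall x r) ≤ ENNReal.ofReal (C₀ * r ^ m)) →
      ∀ M τ : ℝ, 0 < M → finrank ℚ K * (1 - 1 / (n.choose (n / 2) : ℝ)) / M < τ * m →
      ∀ᵐ ξ ∂μ, ∀ A c : ℝ, {P | Near φ A τ ξ P ∧ ¬ h P < M * rad P + c}.Finite) := by
  refine ⟨part_one hn φ, fun τ hτ => ?_, fun M τ hM hτ => dim_all hn hM hτ φ,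
    fun _ μ C₀ m hμ M τ hM hlt => ae_all' μ hμ hn hM hlt φ⟩
  obtain ⟨E, h1, h2⟩ := dim_all (K := K) hn one_pos hτ φ
  rw [one_mul] at h1
  refine ⟨E, h1, fun ξ hξ A ε hε => ?_⟩
  have h3 := h2 ξ hξ A 0
  simp only [add_zero] at h3
  obtain ⟨C, hC⟩ := absorb h3
  refine ⟨C, fun P hP => (hC P hP).trans_le ?_⟩
  nlinarith [rad_nonneg P]

end Pool.Agent.Results.MP_7475bd_nt.PointsNearAPoint
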