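import Pool.Agent.R366.AB.Main

/-!
# The n-term abc conjecture for almost all points of every unirational subvariety

`K` is a number field, `H` the hyperplane `z_1 + ⋯ + z_r = 0` of `ℙ^(r-1)`, and `φ : ℙⁿ ⇢ H` any
rational map over `K`, given by forms `f_1, …, f_r` of degree `D` in `x_0, …, x_n` without common
factor, `∑ f_i = 0`, none of them zero. Let

  `f_i = c_i ∏_j F_j ^ (a_ij)`

be the factorisations into irreducible forms over `K`. A factor `F_j` has weight `m_j = deg F_j` if it
is linear or quadratic, weight `m_j` if it is the norm form of a linear form with `m_j` linearly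
independent coefficients, and every factor has weight one.

Then for each `θ < ∑ m_j` all but `O(B ^ (n + 1 - ε))` of the about `B ^ (n + 1)` points `x` of `ℙⁿ(K)`
of relative height at most `B` are mapped to points `z = φ(x)` of `H(K)` with nonzero coordinates,
`rad(z) ≥ θ log B / [K : ℚ] - C` and `h(z) ≤ (D / θ) rad(z) + C`. The inequality
`h < (1 + δ) rad + C` of the conjecture follows as soon as the sum of the weights is at least `D`, for
example whenever the product of the `f_i` has at least `D` different irreducible factors.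
-/

set_option autoImplicit false

namespace Pool.Agent.Results.MP_7475bd_nt.UnirationalSubvarieties

open MvPolynomial NumberField IsDedekindDomain
open scoped LinearAlgebra.Projectivization

variable {K : Type} [Field K] [NumberField K] {n q r : ℕ}

/-- `F` is, up to a constant factor, the norm form of `∑ α i * x i` from an extension `E` of `K`, and
`m` of the `α i` are linearly independent over `K`. -/
def IsNormForm (F : MvPolynomial (Fin (n + 1)) (𝓞 K)) (m : ℕ) : Prop :=
  ∃ (E : Type) (_ : Field E) (_ : NumberField E) (_ : Algebra K E) (c : K) (α : Fin (n + 1) → E)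
    (J : Finset (Fin (n + 1))), c ≠ 0 ∧ J.card = m ∧
      LinearIndependent K (fun j : J => α j) ∧
      ∀ x : Fin (n + 1) → 𝓞 K, ((eval x F : 𝓞 K) : K) =
        c * Algebra.norm K (∑ i, algebraMap K E (x i) * α i)

/-- The point `z` with the coordinates `z_i = c_i ∏_j F_j(x) ^ (a_ij)`. -/
noncomputable def point (F : Fin q → MvPolynomial (Fin (n + 1)) (𝓞 K)) (a : Fin r → Fin q → ℕ)
    (c : Fin r → K) (x : Fin (n + 1) → K) : Fin r → K :=
  fun i => c i * ∏ j, aeval x (F j) ^ a i j

/-- The absolute logarithmic height `h(z)` of the point with homogeneous coordinates `z`. -/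
noncomputable def height (z : Fin r → K) : ℝ := Height.logHeight z / Module.finrank ℚ K

open Classical in
/-- `rad(z)`: the sum of `log N(v) / [K : ℚ]` over the primes `v` of `K` at which the coordinates do
not all have the same absolute value. -/
noncomputable def radical (z : Fin r → K) : ℝ :=
  (∑ᶠ v : HeightOneSpectrum (𝓞 K), if ∃ i j, FinitePlace.mk v (z i) ≠ FinitePlace.mk v (z j)
    then Real.log (Ideal.absNorm v.asIdeal) else 0) / Module.finrank ℚ K

/-- **The n-term abc inequality for almost all points of every unirational subvariety.** -/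
theorem result (K : Type) [Field K] [NumberField K] (n q r : ℕ)
    -- the irreducible factors and their weights
    (F : Fin q → MvPolynomial (Fin (n + 1)) (𝓞 K)) (k m : Fin q → ℕ)
    (hhom : ∀ j, (F j).IsHomogeneous (k j))
    (hirr : ∀ j, Irreducible (map (algebraMap (𝓞 K) K) (F j)))
    (hdist : ∀ i j, i ≠ j →
      ¬ Associated (map (algebraMap (𝓞 K) K) (F i)) (map (algebraMap (𝓞 K) K) (F j)))
    (hm : ∀ j, m j ≤ 1 ∨ (m j ≤ k j ∧ k j ≤ 2) ∨ IsNormForm (F j) (m j))
    -- the forms `f_i = c_i ∏_j F_j ^ (a_ij)` of degree `D`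
    (D : ℕ) (a : Fin r → Fin q → ℕ) (ha : ∀ i, ∑ j, a i j * k j = D)
    (hpos : ∀ j, ∃ i, 1 ≤ a i j) (hzero : ∀ j, ∃ i, a i j = 0)
    (c : Fin r → K) (hc : ∀ i, c i ≠ 0)
    (hsum : ∑ i, C (c i) * ∏ j, map (algebraMap (𝓞 K) K) (F j) ^ a i j = 0)
    (θ : ℝ) (hθ0 : 0 < θ) (hθ : θ < ∑ j, (m j : ℝ)) :
    ∃ ε : ℝ, 0 < ε ∧ ∃ C : ℝ, ∀ B : ℕ, 1 ≤ B → ∃ Z : Finset (ℙ K (Fin (n + 1) → K)),
      (Z.card : ℝ) ≤ C * (B : ℝ) ^ ((n : ℝ) + 1 - ε) ∧
      ∀ P : ℙ K (Fin (n + 1) → K), P.mulHeight ≤ B → P ∉ Z →
        (∀ i, point F a c P.rep i ≠ 0) ∧ ∑ i, point F a c P.rep i = 0 ∧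
        θ * Real.log B / Module.finrank ℚ K ≤ radical (point F a c P.rep) + C ∧
        height (point F a c P.rep) ≤ D / θ * radical (point F a c P.rep) + C := by
  have hd0 : (1 : ℝ) ≤ Module.finrank ℚ K := by
    exact_mod_cast (Module.finrank_pos (R := ℚ) (M := K))
  obtain ⟨ε, hε, C, h⟩ := R366.AB.main_projective F k m hhom hirr hdist hm D a ha hpos hzero c hc θ
    hθ0 hθ
  refine ⟨ε, hε, max C 0, fun B hB => ?_⟩
  obtain ⟨Z, hZ, h1⟩ := h B hB
  refine ⟨Z, hZ.trans (mul_le_mul_of_nonneg_right (le_max_left _ _) (by positivity)), ?_⟩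
  intro P hP hPZ
  obtain ⟨h2, h3, h4⟩ := h1 P hP hPZ
  have e1 : R366.AB.pt F a c P.rep = point F a c P.rep := rfl
  have e2 : radical (point F a c P.rep) = R366.AB.radK (point F a c P.rep) / Module.finrank ℚ K := rfl
  rw [e1] at h2 h3 h4
  have h5 : C / Module.finrank ℚ K ≤ max C 0 := by
    rw [div_le_iff₀ (by linarith)]
    have h6 := le_max_left C 0
    have h7 := le_max_right C 0
    nlinarith
  refine ⟨h2, ?_, ?_, ?_⟩
  · have h6 := congrArg (eval P.rep) hsum
    rw [map_sum, map_zero] at h6
    rw [← h6]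
    refine Finset.sum_congr rfl fun i _ => ?_
    rw [point, map_mul, eval_C, map_prod]
    congr 1
    refine Finset.prod_congr rfl fun j _ => ?_
    rw [map_pow, R366.AB.aeval_eq_eval]
  · rw [e2]
    have h6 := div_le_div_of_nonneg_right h3 (by linarith : (0 : ℝ) ≤ Module.finrank ℚ K)
    rw [add_div] at h6
    linarith
  · rw [e2, height]
    have h6 := div_le_div_of_nonneg_right h4 (by linarith : (0 : ℝ) ≤ Module.finrank ℚ K)
    rw [add_div, mul_div_assoc] at h6
    linarith

end Pool.Agent.Results.MP_7475bd_nt.UnirationalSubvarieties
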